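import Pool.Agent.X209.NB.InvL

/-!
# Dade's invariant conjecture and central characters

Let `G` be a normal subgroup of the finite group `E`. Summed over the blocks with nontrivial defect
groups, Dade's invariant conjecture says that, if `O_p(G) = 1`, for all `d > 0` and `U ≤ E` the
alternating sum over the `G`-classes of chains `σ` of nontrivial `p`-subgroups of `G` of the numbers
of the characters `χ` of `N_G(σ)` of defect `d` with `N_E(σ, χ) G = U` is zero. We prove that this
conjecture is equivalent to its refinement in which only the characters over a given linear
character of the centre of `G` are counted. The linear character need not be fixed by `E`.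
-/

open scoped Classical
open Pool.Agent.X209.PJ Pool.Agent.X209.NB

noncomputable section

namespace Pool.Agent.Results.MP_baa4d7_al.CentralCharacters

section defs

variable {E : Type} [Group E]

/-- Dade's invariant equations for the normal subgroup `G` of `E`, summed over the blocks. -/
def Dade (p : ℕ) (G : Subgroup E) : Prop :=
  ∀ (U : Subgroup E) (d : ℕ), 0 < d →
    altC p (⊥ : Subgroup G) (fun σ => (kInv p G U d σ : ℤ)) = 0

/-- The same equations for the characters over each single linear character of `Z(G)`. -/
def DadeCenter (p : ℕ) (G : Subgroup E) : Prop :=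
  ∀ (lam : Subgroup.center G →* ℂˣ) (U : Subgroup E) (d : ℕ), 0 < d →
    altC p (⊥ : Subgroup G) (fun σ => (kInvLam p G U lam d σ : ℤ)) = 0

/-- The equations for all linear characters of the subgroup `Z` with Sylow `p`-subgroup `A`. -/
def DadeOver (p : ℕ) {G : Subgroup E} (A Z : Subgroup G) : Prop :=
  ∀ (lam : Z →* ℂˣ) (U : Subgroup E) (d : ℕ), (Nat.card A).factorization p < d →
    altC p A (fun σ => (kInvLam p G U lam d σ : ℤ)) = 0

end defs

/-- (1) The invariant conjecture (summed over blocks) for all `G` and `E` with `O_p(G) = 1` is
equivalent to its refinement for all single linear characters of `Z(G)`. (2) Let `Z ≤ G` be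
contained in the centre of `E`, with Sylow `p`-subgroup `A`. The equations for all linear
characters of `Z` are equivalent to the equations, without linear characters, for the normal
subgroups `G/Y` of `E/Y`, for all `Y ≤ Z`. -/
theorem result (p : ℕ) [Fact p.Prime] :
    ((∀ (E : Type) [Group E] [Finite E] (G : Subgroup E), G.Normal →
        IsCore p (⊥ : Subgroup G) → Dade p G) ↔
      ∀ (E : Type) [Group E] [Finite E] (G : Subgroup E), G.Normal →
        IsCore p (⊥ : Subgroup G) → DadeCenter p G) ∧
    ∀ (E : Type) [Group E] [Finite E] (G : Subgroup E), G.Normal → ∀ A Z : Subgroup G,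
      Z.map G.subtype ≤ Subgroup.center E → IsSylowOf p A Z →
        (DadeOver p A Z ↔ ∀ Y : Subgroup G, Y ≤ Z → QuotEq p A Y) := by
  refine ⟨inv_global, ?_⟩
  intro E _ _ G hG A Z hZE hS
  exact inv_local hZE hS

end Pool.Agent.Results.MP_baa4d7_al.CentralCharacters
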