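import Pool.Agent.X209.DI.Extra

/-!
# Dade's invariant conjecture for cyclic quotients and the Knörr–Robinson conjecture

Let `G` be a normal subgroup of the finite group `E` and `p` a prime. For a chain `σ` of nontrivial
`p`-subgroups of `G` let `E_σ` be its stabiliser in `E` and `G_σ = G ∩ E_σ`, and for an irreducible
character `χ` of `G_σ` let `N_E(σ, χ)` be the stabiliser of the pair. Dade's invariant conjecture,
summed over all defects `d` and over all blocks with nontrivial defect groups, says that for each
`U ≤ E / G` the alternating sum over the `G`-classes of chains of the number of the `χ ∈ Irr(G_σ)`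
with `N_E(σ, χ) G / G = U` is the number of the characters of `p`-defect zero of `G` with stabiliser
`U` in `E / G` (these are the characters in the blocks with trivial defect groups).

We prove that for a cyclic quotient `E / G` of order not divisible by `p²` this holds for all `U`
if and only if the Knörr–Robinson conjecture (the alternating-sum form of Alperin's weight
conjecture) holds for all groups between `G` and `E`.
-/

open scoped Classical

noncomputable section

namespace Pool.Agent.Results.MP_baa4d7_al.CyclicQuotients

open Pool.Agent.Y63.KR (IsPChain chainStabilizer conjSub KRC)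
open Pool.Agent.Helper884.IC (IsIrrChar)
open Pool.Agent.X209.DI (altSum)

section

variable {E : Type} [Group E]

/-- The element `b` lies in the stabiliser `E_σ` and fixes the character `χ` of `G_σ`. Here `G_σ` is
the subgroup `G ∩ E_σ` of `E_σ`. -/
def Fixes (G : Subgroup E) (σ : Set (Subgroup E)) (χ : G.subgroupOf (chainStabilizer σ) → ℂ)
    (b : E) : Prop :=
  b ∈ chainStabilizer σ ∧ ∀ x y : G.subgroupOf (chainStabilizer σ),
    ((y : chainStabilizer σ) : E) = b * ((x : chainStabilizer σ) : E) * b⁻¹ → χ y = χ x

/-- The number of the irreducible characters `χ` of `G_σ` with `N_E(σ, χ) G = U`. -/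
def numInv (G U : Subgroup E) (σ : Set (Subgroup E)) : ℕ :=
  Nat.card {χ : G.subgroupOf (chainStabilizer σ) → ℂ // IsIrrChar χ ∧
    ∀ u : E, u ∈ U ↔ ∃ b, Fixes G σ χ b ∧ b⁻¹ * u ∈ G}

/-- The number of the irreducible characters of `G` of `p`-defect zero with stabiliser `U` in
`E`. -/
def numInvDefectZero (p : ℕ) (G U : Subgroup E) : ℕ :=
  Nat.card {χ : G → ℂ // IsIrrChar χ ∧
    (∃ n : ℕ, χ 1 = (n : ℂ) ∧ n.factorization p = (Nat.card G).factorization p) ∧
    ∀ u : E, u ∈ U ↔ ∀ x y : G, (y : E) = u * x * u⁻¹ → χ y = χ x}

/-- The alternating sum `∑_σ (-1)^|σ| #{χ ∈ Irr(G_σ) : N_E(σ, χ) G = U}` over representatives of the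
`G`-classes of chains of nontrivial `p`-subgroups of `G`, the empty chain included. -/
def dadeSum (p : ℕ) (G U : Subgroup E) : ℤ := altSum p G (fun σ => (numInv G U σ : ℤ))

/-- The sum over all subgroups `V ≥ U` of the differences between `dadeSum` and the number of
characters of defect zero: it is zero if and only if the alternating sum of the numbers of the
characters `χ` of `G_σ` with `U ≤ N_E(σ, χ) G` is the number of the characters of `G` of defect zero
fixed by `U`. -/
def upperSum (p : ℕ) (G U : Subgroup E) : ℤ :=
  ∑ᶠ V : {V : Subgroup E // U ≤ V}, (dadeSum p G V.1 - (numInvDefectZero p G V.1 : ℤ))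

end

section

variable {p : ℕ} {E : Type} [Group E] [Fintype E] {G : Subgroup E} [hG : G.Normal]

lemma numInv_eq (U : Subgroup E) (σ : Set (Subgroup E)) :
    numInv G U σ = Pool.Agent.X209.DI.kEq G U σ := by
  unfold numInv Pool.Agent.X209.DI.kEq
  refine Nat.card_congr (Equiv.subtypeEquivRight fun χ => ?_)
  refine and_congr_right fun _ => ?_
  have key : ∀ u : E, u ∈ Pool.Agent.X209.DI.inE G σ χ ↔ ∃ b, Fixes G σ χ b ∧ b⁻¹ * u ∈ G := by
    intro u
    unfold Pool.Agent.X209.DI.inE
    rw [Pool.Agent.X209.DI.mem_sup_iff]
    refine exists_congr fun b => and_congr_left fun _ => ?_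
    constructor
    · rintro ⟨c, hc, rfl⟩
      refine ⟨c.2, fun x y hxy => ?_⟩
      have h1 := congrFun (show Pool.Agent.Y63.AWC.cj _ c χ = χ from hc) x
      rw [← h1]
      unfold Pool.Agent.Y63.AWC.cj
      congr 1
      apply Subtype.ext
      apply Subtype.ext
      rw [MulAut.conjNormal_apply]
      exact hxy
    · rintro ⟨hb, h1⟩
      refine ⟨⟨b, hb⟩, ?_, rfl⟩
      change Pool.Agent.Y63.AWC.cj _ _ χ = χ
      funext x
      apply h1
      rw [MulAut.conjNormal_apply]
      rfl
  constructor
  · intro h
    ext u
    rw [key, ← h]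
  · rintro rfl u
    exact key u

lemma numInvDefectZero_eq (U : Subgroup E) :
    numInvDefectZero p G U = Pool.Agent.X209.DI.zEq p G U := by
  unfold numInvDefectZero Pool.Agent.X209.DI.zEq
  refine Nat.card_congr (Equiv.subtypeEquivRight fun χ => ?_)
  refine and_congr_right fun _ => and_congr Iff.rfl ?_
  have key : ∀ u : E, u ∈ Pool.Agent.Y63.AWC.St G χ ↔
      ∀ x y : G, (y : E) = u * x * u⁻¹ → χ y = χ x := by
    intro u
    rw [Pool.Agent.Y63.AWC.mem_St]
    constructor
    · intro h x y hxy
      rw [← congrFun h x]
      unfold Pool.Agent.Y63.AWC.cj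
      congr 1
      apply Subtype.ext
      rw [MulAut.conjNormal_apply]
      exact hxy
    · intro h
      funext x
      apply h
      rw [MulAut.conjNormal_apply]
  constructor
  · intro h
    ext u
    rw [key, ← h]
  · rintro rfl u
    exact key u

lemma diff_eq (U : Subgroup E) :
    dadeSum p G U - (numInvDefectZero p G U : ℤ) = Pool.Agent.X209.DI.ex p G U := by
  unfold dadeSum Pool.Agent.X209.DI.ex
  rw [numInvDefectZero_eq]
  congr 2
  funext σ
  rw [numInv_eq]

lemma upperSum_eq (U : Subgroup E) :
    upperSum p G U = Pool.Agent.X209.DI.dl p G U := by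
  rw [Pool.Agent.X209.DI.dl_eq_sum]
  have : Fintype {V : Subgroup E // U ≤ V} := Fintype.ofFinite _
  unfold upperSum
  rw [finsum_eq_sum_of_fintype]
  rw [Finset.sum_congr rfl fun V _ => diff_eq (p := p) (G := G) V.1]
  exact (Finset.sum_subtype (Pool.Agent.X209.DI.above U)
    (fun V => Pool.Agent.X209.DI.mem_above) (fun V => Pool.Agent.X209.DI.ex p G V)).symm

end

/-- Let `p` be a prime.

(1) Let `G` be a normal subgroup of the finite group `E` with `E / G` cyclic of order not divisible
by `p²`. The Knörr–Robinson conjecture holds for all groups between `G` and `E` if and only if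
for all `U` between `G` and `E` the alternating sum of the numbers of the characters `χ` of `G_σ`
with `N_E(σ, χ) G = U` is the number of the characters of `G` of defect zero with stabiliser `U`.

(2) Let `G` be a normal subgroup of the finite group `E` with `E / G` cyclic. The Knörr–Robinson
conjecture holds for all groups between `G` and `E` if and only if for all `U` between `G` and `E`
such that `p²` does not divide `|U : G|` the sum of the identity in (1) over all subgroups
`V ≥ U` holds.

(3) Let `G` be a normal subgroup of an arbitrary finite group `E` and `U` a subgroup of `E`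
containing `G`, with `U / G` cyclic of order not divisible by `p²`. If the Knörr–Robinson
conjecture holds for all groups between `G` and `U`, then the sum of the identity in (1) over all
subgroups `V ≥ U` of `E` holds. -/
theorem result (p : ℕ) [Fact p.Prime] :
    (∀ (E : Type) [Group E] [Finite E] (G : Subgroup E) [G.Normal], IsCyclic (E ⧸ G) →
      ¬ p ^ 2 ∣ G.index →
      ((∀ H : Subgroup E, G ≤ H → KRC p H) ↔
        ∀ U : Subgroup E, G ≤ U → dadeSum p G U = (numInvDefectZero p G U : ℤ))) ∧
    (∀ (E : Type) [Group E] [Finite E] (G : Subgroup E) [G.Normal], IsCyclic (E ⧸ G) →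
      ((∀ H : Subgroup E, G ≤ H → KRC p H) ↔
        ∀ U : Subgroup E, G ≤ U → ¬ p ^ 2 ∣ G.relIndex U → upperSum p G U = 0)) ∧
    (∀ (E : Type) [Group E] [Finite E] (G : Subgroup E) [G.Normal] (U : Subgroup E), G ≤ U →
      IsCyclic (U ⧸ G.subgroupOf U) → ¬ p ^ 2 ∣ G.relIndex U →
      (∀ H : Subgroup U, G.subgroupOf U ≤ H → KRC p H) → upperSum p G U = 0) := by
  refine ⟨?_, ?_, ?_⟩
  · intro E _ _ G _ hcyc hp2
    let _ := Fintype.ofFinite E
    rw [Pool.Agent.X209.DI.equiv_ge (p := p) (G := G)]
    have h1 : (∀ U : Subgroup E, G ≤ U → ¬ p ^ 2 ∣ G.relIndex U →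
        Pool.Agent.X209.DI.dl p G U = 0) ↔ (∀ U : Subgroup E, G ≤ U →
        Pool.Agent.X209.DI.dl p G U = 0) := by
      constructor
      · intro h U hGU
        refine h U hGU fun h2 => hp2 (h2.trans ?_)
        have := Subgroup.relIndex_mul_relIndex G U ⊤ hGU le_top
        rw [Subgroup.relIndex_top_right, Subgroup.relIndex_top_right] at this
        rw [← this]
        exact Dvd.intro _ rfl
      · intro h U hGU _
        exact h U hGU
    rw [h1, Pool.Agent.X209.DI.exact_iff]
    refine forall_congr' fun U => imp_congr_right fun _ => ?_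
    rw [← diff_eq, sub_eq_zero]
  · intro E _ _ G _ hcyc
    let _ := Fintype.ofFinite E
    rw [Pool.Agent.X209.DI.equiv_ge (p := p) (G := G)]
    refine forall_congr' fun U => imp_congr_right fun _ => imp_congr_right fun _ => ?_
    rw [← upperSum_eq]
  · intro E _ _ G _ U hGU hcyc hp2 hK
    let _ := Fintype.ofFinite E
    rw [upperSum_eq]
    exact Pool.Agent.X209.DI.dl_eq_zero hGU hcyc hp2 hK

end Pool.Agent.Results.MP_baa4d7_al.CyclicQuotients
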