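import Pool.Agent.X209.DI.Congr
import Pool.Agent.Results.MP_baa4d7_al.CyclicQuotients

/-!
# Dade's invariant conjecture for cyclic groups of automorphisms, and centralisers

Let `G` be a normal subgroup of the finite group `E`, `p` a prime and `G ≤ U ≤ E` with `U / G`
cyclic. We compare the alternating sum over the `G`-classes of chains `σ` of nontrivial
`p`-subgroups of `G` of the numbers of the characters `χ` of `G_σ` with `U ≤ N_E(σ, χ) G` with the
number of the characters of `G` of `p`-defect zero fixed by `U` (Dade's invariant conjecture, summed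
over all defects and all blocks with nontrivial defect groups, says that the two are equal).

If `U / G` is a `p`-group generated by `e G`, then `|G|` times the difference is the sum over the
`p`-elements `q` in `e G` with `⟨q⟩ ∩ G = 1` of `|C_G(q)| δ_p(C_G(q))`, where `δ_p(H)` is the
difference of the two sides of the conjecture of Knörr and Robinson for `H`. In particular there is
no need to know anything about the action of `U` on the characters.
-/

open scoped Classical

noncomputable section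

namespace Pool.Agent.Results.MP_baa4d7_al.EquivariantKnorrRobinson

open Pool.Agent.Y63.KR (KRC chi2)
open Pool.Agent.Y63.AWC (numDefectZero)
open Pool.Agent.Results.MP_baa4d7_al.CyclicQuotients (dadeSum numInvDefectZero upperSum)

/-- The difference of the two sides of the conjecture of Knörr and Robinson:
`δ_p(H) = k(H) - z_p(H) - χ₂`. It is zero if and only if `KRC p H`. -/
def krDefect (p : ℕ) (H : Type) [Group H] : ℚ :=
  (Nat.card (ConjClasses H) : ℚ) - (numDefectZero p H : ℚ) - chi2 p H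

/-- `q` is an element of `p`-power order with `⟨q⟩ ∩ G = 1`. -/
def Outer (p : ℕ) {E : Type} [Group E] (G : Subgroup E) (q : E) : Prop :=
  (∃ j : ℕ, q ^ p ^ j = 1) ∧ Subgroup.zpowers q ⊓ G = ⊥

section

variable {p : ℕ} {E : Type} [Group E] [Fintype E] {G : Subgroup E} [hG : G.Normal]

lemma inf_iff (q : E) : Subgroup.zpowers q ⊓ G = ⊥ ↔ ∀ i : ℕ, q ^ i ∈ G → q ^ i = 1 := by
  constructor
  · intro h i hi
    have h1 : q ^ i ∈ Subgroup.zpowers q ⊓ G :=
      ⟨Subgroup.pow_mem _ (Subgroup.mem_zpowers q) i, hi⟩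
    rwa [h, Subgroup.mem_bot] at h1
  · intro h
    rw [eq_bot_iff]
    rintro x ⟨hx, hxG⟩
    have hfo : IsOfFinOrder q := isOfFinOrder_of_finite _
    obtain ⟨i, hi⟩ := (hfo.mem_powers_iff_mem_zpowers).mpr hx
    simp only [] at hi
    rw [Subgroup.mem_bot, ← hi]
    apply h
    rw [hi]
    exact hxG

lemma part1 [Fact p.Prime] (e : E) (he : ∃ k : ℕ, e ^ p ^ k ∈ G) :
    (Nat.card G : ℚ) * (upperSum p G (Subgroup.zpowers e ⊔ G) : ℚ) =
      ∑ᶠ q : {q : E // Outer p G q ∧ e⁻¹ * q ∈ G},
        (Nat.card ↥(G ⊓ Subgroup.centralizer {q.1}) : ℚ) *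
          krDefect p ↥(G ⊓ Subgroup.centralizer {q.1}) := by
  obtain ⟨k, hk⟩ := he
  have h1 := Pool.Agent.X209.DI.dl_cent_p (p := p) (G := G) hk
  rw [Pool.Agent.Results.MP_baa4d7_al.CyclicQuotients.upperSum_eq]
  have h2 : ((Nat.card G : ℤ) * Pool.Agent.X209.DI.dl p G (Subgroup.zpowers e ⊔ G) : ℤ) = _ := h1
  have h3 := congrArg (Int.cast : ℤ → ℚ) h2
  push_cast at h3
  rw [h3]
  have : Fintype {q : E // Outer p G q ∧ e⁻¹ * q ∈ G} := Fintype.ofFinite _
  rw [finsum_eq_sum_of_fintype]
  refine Finset.sum_bij' (fun q hq => ⟨q, ?_⟩) (fun q _ => q.1) ?_ ?_ ?_ ?_ ?_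
  · rw [Pool.Agent.X209.DI.mem_Qe] at hq
    exact ⟨⟨hq.1, (inf_iff q).mpr hq.2.1⟩, hq.2.2⟩
  · intro q _
    exact Finset.mem_univ _
  · intro q _
    rw [Pool.Agent.X209.DI.mem_Qe]
    exact ⟨q.2.1.1, (inf_iff q.1).mp q.2.1.2, q.2.2⟩
  · intro q _
    rfl
  · intro q _
    rfl
  · intro q _
    rw [← Pool.Agent.X209.DI.krDefect_eq]
    rfl

lemma part3 [Fact p.Prime] (hcyc : IsCyclic (E ⧸ G))
    (hK : ∀ H : Subgroup E, G ≤ H → ¬ p ∣ G.relIndex H → ∀ q : E, Outer p G q →
      KRC p ↥(H ⊓ Subgroup.centralizer {q})) (U : Subgroup E) (hGU : G ≤ U) :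
    dadeSum p G U = (numInvDefectZero p G U : ℤ) := by
  have h1 : ∀ U : Subgroup E, G ≤ U → Pool.Agent.X209.DI.dl p G U = 0 := fun U hGU =>
    Pool.Agent.X209.DI.dl_cyc hGU fun H h1 _ h2 q hq => hK H h1 h2 q ⟨hq.ppow, hq.inf⟩
  have h2 := Pool.Agent.X209.DI.exact_iff.mp h1 U hGU
  rw [← Pool.Agent.Results.MP_baa4d7_al.CyclicQuotients.diff_eq, sub_eq_zero] at h2
  exact h2

end

/-- Let `p` be a prime.

(1) Let `G` be a normal subgroup of the finite group `E` and `e` an element of `E` whose order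
modulo `G` is a power of `p`. For `U = ⟨e⟩ G` the number `|G|` times `upperSum p G U` is the sum of
`|C_G(q)| δ_p(C_G(q))` over the elements `q ∈ e G` of `p`-power order with `⟨q⟩ ∩ G = 1`.

(2) Let `G ≤ U ≤ E` with `U / G` cyclic. If the conjecture of Knörr and Robinson holds for `C_H(q)`
for all `H` between `G` and `U` with `|H : G|` prime to `p` and all elements `q ∈ U` of `p`-power
order such that `⟨q⟩ ∩ G = 1` and `|U : ⟨q⟩ G|` is prime to `p`, then `upperSum p G U = 0`.

(3) Let `E / G` be cyclic. If the conjecture of Knörr and Robinson holds for `C_H(q)` for all `H`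
between `G` and `E` with `|H : G|` prime to `p` and all `q ∈ E` of `p`-power order such that
`⟨q⟩ ∩ G = 1`, then for all `U` between `G` and `E` the alternating sum of the numbers of the
characters `χ` of `G_σ` with `N_E(σ, χ) G = U` is the number of the characters of `G` of defect zero
with stabiliser `U`.

(4) The conjecture of Knörr and Robinson holds at `p` for all finite groups if and only if the
conclusion of (3) holds whenever `E / G` is cyclic.

(5) It holds at `p` for all finite groups if and only if `upperSum p G U = 0` for all finite groups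
`E` and all `G ≤ U ≤ E` with `G` normal in `E` and `U / G` cyclic. -/
theorem result (p : ℕ) [Fact p.Prime] :
    (∀ (E : Type) [Group E] [Finite E] (G : Subgroup E) [G.Normal] (e : E),
      (∃ k : ℕ, e ^ p ^ k ∈ G) →
      (Nat.card G : ℚ) * (upperSum p G (Subgroup.zpowers e ⊔ G) : ℚ) =
        ∑ᶠ q : {q : E // Outer p G q ∧ e⁻¹ * q ∈ G},
          (Nat.card ↥(G ⊓ Subgroup.centralizer {q.1}) : ℚ) *
            krDefect p ↥(G ⊓ Subgroup.centralizer {q.1})) ∧
    (∀ (E : Type) [Group E] [Finite E] (G : Subgroup E) [G.Normal] (U : Subgroup E), G ≤ U →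
      IsCyclic (U ⧸ G.subgroupOf U) →
      (∀ H : Subgroup U, G.subgroupOf U ≤ H → ¬ p ∣ (G.subgroupOf U).relIndex H → ∀ q : U,
        Outer p (G.subgroupOf U) q → ¬ p ∣ (Subgroup.zpowers q ⊔ G.subgroupOf U).index →
        KRC p ↥(H ⊓ Subgroup.centralizer {q})) → upperSum p G U = 0) ∧
    (∀ (E : Type) [Group E] [Finite E] (G : Subgroup E) [G.Normal], IsCyclic (E ⧸ G) →
      (∀ H : Subgroup E, G ≤ H → ¬ p ∣ G.relIndex H → ∀ q : E, Outer p G q →
        KRC p ↥(H ⊓ Subgroup.centralizer {q})) →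
      ∀ U : Subgroup E, G ≤ U → dadeSum p G U = (numInvDefectZero p G U : ℤ)) ∧
    ((∀ (H : Type) [Group H] [Finite H], KRC p H) ↔
      ∀ (E : Type) [Group E] [Finite E] (G : Subgroup E) [G.Normal], IsCyclic (E ⧸ G) →
        ∀ U : Subgroup E, G ≤ U → dadeSum p G U = (numInvDefectZero p G U : ℤ)) ∧
    ((∀ (H : Type) [Group H] [Finite H], KRC p H) ↔
      ∀ (E : Type) [Group E] [Finite E] (G : Subgroup E) [G.Normal] (U : Subgroup E), G ≤ U →
        IsCyclic (U ⧸ G.subgroupOf U) → upperSum p G U = 0) := by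
  have h3 : ∀ (E : Type) [Group E] [Finite E] (G : Subgroup E) [G.Normal], IsCyclic (E ⧸ G) →
      (∀ H : Subgroup E, G ≤ H → ¬ p ∣ G.relIndex H → ∀ q : E, Outer p G q →
        KRC p ↥(H ⊓ Subgroup.centralizer {q})) →
      ∀ U : Subgroup E, G ≤ U → dadeSum p G U = (numInvDefectZero p G U : ℤ) := by
    intro E _ _ G _ hcyc hK U hGU
    let _ := Fintype.ofFinite E
    exact part3 hcyc hK U hGU
  have h2 : ∀ (E : Type) [Group E] [Finite E] (G : Subgroup E) [G.Normal] (U : Subgroup E), G ≤ U →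
      IsCyclic (U ⧸ G.subgroupOf U) →
      (∀ H : Subgroup U, G.subgroupOf U ≤ H → ¬ p ∣ (G.subgroupOf U).relIndex H → ∀ q : U,
        Outer p (G.subgroupOf U) q → ¬ p ∣ (Subgroup.zpowers q ⊔ G.subgroupOf U).index →
        KRC p ↥(H ⊓ Subgroup.centralizer {q})) → upperSum p G U = 0 := by
    intro E _ _ G _ U hGU hcyc hK
    let _ := Fintype.ofFinite E
    rw [Pool.Agent.Results.MP_baa4d7_al.CyclicQuotients.upperSum_eq]
    refine Pool.Agent.X209.DI.dl_cyc' hGU hcyc fun H h1 h2 q hq => hK H h1 h2 q ⟨hq.ppow, hq.inf⟩ ?_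
    have h3 := hq.idx
    rwa [Subgroup.relIndex_top_right] at h3
  refine ⟨?_, h2, h3, ?_, ?_⟩
  · intro E _ _ G _ e he
    let _ := Fintype.ofFinite E
    exact part1 e he
  · constructor
    · intro hK E _ _ G _ hcyc U hGU
      exact h3 E G hcyc (fun H _ _ q _ => hK _) U hGU
    · intro h H _ _
      let _ := Fintype.ofFinite H
      have hcyc : IsCyclic (H ⧸ (⊤ : Subgroup H)) := by
        have : Subsingleton (H ⧸ (⊤ : Subgroup H)) := QuotientGroup.subsingleton_quotient_top
        exact isCyclic_of_subsingleton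
      have h4 : ∀ U : Subgroup H, ⊤ ≤ U → Pool.Agent.X209.DI.ex p (⊤ : Subgroup H) U = 0 := by
        intro U hU
        rw [← Pool.Agent.Results.MP_baa4d7_al.CyclicQuotients.diff_eq, sub_eq_zero]
        exact h H ⊤ hcyc U hU
      have h5 := Pool.Agent.X209.DI.exact_iff.mpr h4
      have h6 := (Pool.Agent.X209.DI.equiv_ge (p := p) (G := (⊤ : Subgroup H))).mpr
        (fun U hU _ => h5 U hU) ⊤ le_rfl
      exact (Pool.Agent.X209.DI.KRC_congr Subgroup.topEquiv).mp h6
  · constructor
    · intro hK E _ _ G _ U hGU hcyc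
      exact h2 E G U hGU hcyc (fun H _ _ q _ _ => hK _)
    · intro h H _ _
      let _ := Fintype.ofFinite H
      have hcyc : IsCyclic (H ⧸ (⊤ : Subgroup H)) := by
        have : Subsingleton (H ⧸ (⊤ : Subgroup H)) := QuotientGroup.subsingleton_quotient_top
        exact isCyclic_of_subsingleton
      have h6 := (Pool.Agent.X209.DI.equiv_ge (p := p) (G := (⊤ : Subgroup H))).mpr
        (fun U hU _ => ?_) ⊤ le_rfl
      · exact (Pool.Agent.X209.DI.KRC_congr Subgroup.topEquiv).mp h6
      · have hU' : U = ⊤ := top_le_iff.mp hU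
        subst hU'
        rw [← Pool.Agent.Results.MP_baa4d7_al.CyclicQuotients.upperSum_eq]
        refine h H ⊤ ⊤ le_rfl ?_
        have h8 : (⊤ : Subgroup H).subgroupOf ⊤ = ⊤ := Subgroup.subgroupOf_self _
        have : Subsingleton (↥(⊤ : Subgroup H) ⧸ (⊤ : Subgroup H).subgroupOf ⊤) := by
          rw [h8]
          exact QuotientGroup.subsingleton_quotient_top
        exact isCyclic_of_subsingleton

end Pool.Agent.Results.MP_baa4d7_al.EquivariantKnorrRobinson
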