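import Pool.Agent.X209.DQ.Fin

/-!
# Dade's ordinary conjecture implies his invariant conjecture for cyclic quotients of order prime
# to `p`

Let `G` be a normal subgroup of the finite group `E`, with `E / G` cyclic of order prime to `p`. We
prove that Dade's ordinary conjecture for the groups between `G` and `E` implies Dade's invariant
conjecture for `G` in `E`: for each block `B` of `G` with nontrivial defect groups, each defect `d`
and each `U ≤ E / G`. The chains are the radical `p`-chains. So the ordinary conjecture for all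
groups is equivalent to the invariant conjecture for all such quotients. For a single block `B` the
invariant equations of `B` for all `U` are equivalent to the equations for the blocks covering `B` of
the groups between `G` and the stabiliser of `B`, and we give the formula which expresses the latter
by the former.
-/

open scoped Classical

noncomputable section

namespace Pool.Agent.Results.MP_baa4d7_al.OrdinaryImpliesInvariant

open Pool.Agent.X209.DQ (altW IsRad kX kI Cov StB NoDZ Ord Invt)
open Pool.Agent.X209.PJ (IsCore kOrd)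
open Pool.Agent.Y63.NV (IsBlock)

lemma gen_of_cyclic {E : Type} [Group E] {G : Subgroup E} [G.Normal] (h : IsCyclic (E ⧸ G)) :
    ∃ e₀ : E, G ⊔ Subgroup.zpowers e₀ = ⊤ := by
  obtain ⟨y, hy⟩ := h.exists_generator
  obtain ⟨e₀, rfl⟩ := QuotientGroup.mk_surjective y
  refine ⟨e₀, eq_top_iff.mpr fun x _ => ?_⟩
  obtain ⟨k, hk⟩ := hy (QuotientGroup.mk x)
  have h1 : (QuotientGroup.mk (e₀ ^ k) : E ⧸ G) = QuotientGroup.mk x := hk
  have h2 : (e₀ ^ k)⁻¹ * x ∈ G := QuotientGroup.eq.mp h1
  have h3 : x = e₀ ^ k * ((e₀ ^ k)⁻¹ * x) := by group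
  rw [h3]
  exact Subgroup.mul_mem _
    ((le_sup_right : Subgroup.zpowers e₀ ≤ G ⊔ Subgroup.zpowers e₀)
      (Subgroup.zpow_mem _ (Subgroup.mem_zpowers e₀) k))
    ((le_sup_left : G ≤ G ⊔ Subgroup.zpowers e₀) h2)

lemma cyclic_of_gen {E : Type} [Group E] {G : Subgroup E} [G.Normal]
    (h : ∃ e₀ : E, G ⊔ Subgroup.zpowers e₀ = ⊤) : IsCyclic (E ⧸ G) := by
  obtain ⟨e₀, he₀⟩ := h
  refine ⟨⟨QuotientGroup.mk e₀, fun y => ?_⟩⟩
  obtain ⟨x, rfl⟩ := QuotientGroup.mk_surjective y
  have hx : x ∈ G ⊔ Subgroup.zpowers e₀ := by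
    rw [he₀]
    trivial
  rw [Subgroup.mem_sup_of_normal_left] at hx
  obtain ⟨g, hg, z, ⟨k, rfl⟩, rfl⟩ := hx
  refine ⟨k, ?_⟩
  change (QuotientGroup.mk (e₀ ^ k) : E ⧸ G) = QuotientGroup.mk (g * e₀ ^ k)
  have h1 : (QuotientGroup.mk g : E ⧸ G) = 1 := (QuotientGroup.eq_one_iff g).mpr hg
  rw [QuotientGroup.mk_mul, h1, one_mul]

/-- Let `p` be a prime, `F` a field of characteristic `p` and `red` a ring homomorphism from the
algebraic integers to `F`.

(1) Dade's ordinary conjecture holds for all finite groups `H` with `O_p(H) = 1` if and only if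
Dade's invariant conjecture holds for all finite groups `E` with a normal subgroup `G` such that
`O_p(G) = 1` and `E / G` is cyclic of order prime to `p`.

(2) If `G` is normal in `E` and `E / G` is cyclic of order prime to `p`, then the ordinary equations
for the groups between `G` and `E` imply the invariant equations for `G` in `E`.

(3) If moreover `B` is a block of `G` and `d` is an integer, then the invariant equations of `B` and
`d` hold for all `U` if and only if for all `X` between `G` and the stabiliser of `B` in `E` the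
alternating sum over the radical chains of `X` of the numbers of characters of defect `d` in blocks
which induce blocks covering `B` is zero.

(4) The formula which expresses the alternating sum for `X` in (3) by the alternating sums for the
`U`. -/
theorem result (p : ℕ) [Fact p.Prime] {F : Type} [Field F] [CharP F p]
    (red : integralClosure ℤ ℂ →+* F) :
    ((∀ (H : Type) [Group H] [Finite H], IsCore p (⊥ : Subgroup H) → Ord red p H) ↔
      ∀ (E : Type) [Group E] [Finite E] (G : Subgroup E) [G.Normal], IsCore p (⊥ : Subgroup G) →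
        IsCyclic (E ⧸ G) → ¬ p ∣ G.index → Invt red p G) ∧
    (∀ (E : Type) [Group E] [Finite E] (G : Subgroup E) [G.Normal], IsCyclic (E ⧸ G) →
      ¬ p ∣ G.index → (∀ X : Subgroup E, G ≤ X → Ord red p X) → Invt red p G) ∧
    (∀ (E : Type) [Group E] [Finite E] (G : Subgroup E) [G.Normal], IsCyclic (E ⧸ G) →
      ¬ p ∣ G.index → ∀ (B : (G → F) → F) (d : ℕ), IsBlock B →
      ((∀ X : Subgroup E, G ≤ X → X ≤ StB G B →
        altW p (IsRad p) (fun τ : Set (Subgroup X) => (kX red p B d τ : ℤ)) = 0) ↔
        ∀ U : Subgroup E, altW p (IsRad p) (fun σ => (kI red p B d U σ : ℤ)) = 0) ∧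
      ∀ X : Subgroup E, G ≤ X → X ≤ StB G B →
        (Nat.card G : ℤ) * ((Nat.card X : ℤ) *
          altW p (IsRad p) (fun τ : Set (Subgroup X) => (kX red p B d τ : ℤ))) =
        ∑ᶠ U : Subgroup E, (Nat.card (U ⊓ X : Subgroup E) : ℤ) ^ 2 *
          altW p (IsRad p) (fun σ => (kI red p B d U σ : ℤ))) := by
  refine ⟨?_, ?_, ?_⟩
  · rw [Pool.Agent.X209.DQ.ord_iff_inv red]
    constructor
    · intro h E _ _ G _ hcore hcyc hidx
      exact h E G hcore hidx (gen_of_cyclic hcyc)
    · intro h E _ _ G _ hcore hidx hE
      exact h E G hcore (cyclic_of_gen hE) hidx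
  · intro E _ _ G _ hcyc hidx h
    exact Pool.Agent.X209.DQ.inv_of_mid red hidx (gen_of_cyclic hcyc) h
  · intro E _ _ G _ hcyc hidx B d hB
    refine ⟨Pool.Agent.X209.DQ.local_iff red hidx (gen_of_cyclic hcyc) hB, fun X hX hXV => ?_⟩
    exact Pool.Agent.X209.DQ.formula red hidx hX (gen_of_cyclic hcyc) hB hXV (IsRad p) (IsRad p)
      (fun g σ _ => Pool.Agent.X209.DQ.isRad_conj g σ)
      (fun g σ _ => Pool.Agent.X209.DQ.isRad_conj g σ)
      (fun σ hσ => Pool.Agent.X209.DQ.rad_iff hidx hX hσ)

end Pool.Agent.Results.MP_baa4d7_al.OrdinaryImpliesInvariant
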